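import Pool.Agent.Work.MP_19b229_an.Main

/-!
Measures with Hölder continuous potentials are strong limits of Hausdorff-dominated measures.
-/

set_option autoImplicit false

open MeasureTheory Filter Topology
open scoped ENNReal

namespace Pool.Agent.Results.MP_19b229_an.StrongLimit

open Pool.Agent.Work.MP_19b229_an

/-- Let `N ≥ 2`, `Ω ⊂ ℝ^N` bounded and open, `β > 0` (in particular `0 < β < 1`), and let `μ` be a
finite signed measure on `Ω` whose Newtonian potential is Hölder continuous with exponent `β` on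
`Ω`. Then there are finite signed measures `ν n` on `Ω` with `|ν n| ≤ n ℋ^(N-2+β)` for every `n`
and `‖ν n - μ‖ → 0`. The constant `κ` shows that the normalisation of Hausdorff measure plays no
role. -/
theorem result (N : ℕ) (hN : 2 ≤ N) (Ω : Set (EuclideanSpace ℝ (Fin N))) (hΩo : IsOpen Ω)
    (hΩb : Bornology.IsBounded Ω) (β : ℝ) (hβ : 0 < β)
    (μ : SignedMeasure (EuclideanSpace ℝ (Fin N))) (hμ : CarriedBy μ Ω)
    (hpot : HolderPotential Ω β μ) (κ : ℝ≥0∞) (hκ : κ ≠ 0) :
    ∃ ν : ℕ → SignedMeasure (EuclideanSpace ℝ (Fin N)), (∀ n, CarriedBy (ν n) Ω) ∧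
      (∀ n A, MeasurableSet A →
        (ν n).totalVariation A ≤ n * (κ * Measure.hausdorffMeasure ((N : ℝ) - 2 + β) A)) ∧
      Tendsto (fun n => (ν n - μ).totalVariation Set.univ) atTop (𝓝 0) :=
  main hN hΩo hΩb hβ hμ hpot κ hκ

end Pool.Agent.Results.MP_19b229_an.StrongLimit
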